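import Pool.Agent.Lib.MP_98022b_h66.Hull

/-!
# A class of groups closed under actions on trees with sections
-/

set_option autoImplicit false

namespace Pool.Agent.PE

open SimpleGraph Pool.Agent.FJ

/-- Groups without elements of finite order other than `1`. -/
def TorsionFree (G : Type) [Group G] : Prop := ∀ g : G, IsOfFinOrder g → g = 1

/-- Virtually polycyclic groups: the smallest class of groups which contains the trivial groups and
contains `G` as soon as it contains a normal subgroup `N` of `G` such that `G ⧸ N` is cyclic or
finite. -/
inductive VPoly : ∀ (G : Type) [Group G], Prop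
  | trivial {G : Type} [Group G] (h : Subsingleton G) : VPoly G
  | step {G : Type} [Group G] (N : Subgroup G) [N.Normal] (hN : VPoly N)
      (h : IsCyclic (G ⧸ N) ∨ Finite (G ⧸ N)) : VPoly G

/-- `G` acts on the tree `T` with vertex set `V` by automorphisms, without inversions. -/
structure IsTreeAction (G V : Type) [Group G] [MulAction G V] (T : SimpleGraph V) : Prop where
  tree : T.IsTree
  adj : ∀ (g : G) (u v : V), T.Adj u v → T.Adj (g • u) (g • v)
  noInv : ∀ (g : G) (u v : V), T.Adj u v → g • u = v → g • v ≠ u

/-- The groups `GL_m(ℚ)`. -/
def IsGLQ (G : Type) [Group G] : Prop :=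
  ∃ m : ℕ, Nonempty (G ≃* Matrix.GeneralLinearGroup (Fin m) ℚ)

/-- `s` is a section of `π : L → G` which commutes with inversion and with the multiplication
by elements of `H` on both sides. -/
def IsBisection {L G : Type} [Group L] [Group G] (H : Subgroup G) (π : L →* G) (s : G → L) :
    Prop :=
  (∀ g, π (s g) = g) ∧ (∀ g, s g⁻¹ = (s g)⁻¹) ∧
    ∀ h ∈ H, ∀ g, s (h * g) = s h * s g ∧ s (g * h) = s g * s h

/-- The smallest class of groups which contains the class `B` and the torsion-free groups of the
class `FJHull IsGLQ` and is closed under subgroups, directed colimits and certain actions on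
trees. -/
inductive KLHull (B : ∀ (G : Type) [Group G], Prop) : ∀ (G : Type) [Group G], Prop
  /-- the groups of the class `B` -/
  | base {G : Type} [Group G] (h : B G) : KLHull B G
  /-- torsion-free groups of the smallest class containing `GL_m(ℚ)`, `ℤ` and closed under
  subgroups, finite-index overgroups, products, free products, directed colimits, extensions -/
  | fj {G : Type} [Group G] (ht : TorsionFree G) (h : FJHull IsGLQ G) : KLHull B G
  /-- subgroups (and isomorphic groups) -/
  | sub {G H : Type} [Group G] [Group H] (f : G →* H) (hf : Function.Injective f)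
      (h : KLHull B H) : KLHull B G
  /-- directed colimits: `L` is the colimit of the directed system `(G i, f i j)` with canonical
  maps `g i` -/
  | colimit {ι : Type} [Preorder ι] [IsDirectedOrder ι] [Nonempty ι]
      (G : ι → Type) [∀ i, Group (G i)] (f : ∀ i j, i ≤ j → G i →* G j)
      {L : Type} [Group L] (g : ∀ i, G i →* L)
      (h1 : ∀ i x, f i i le_rfl x = x)
      (h2 : ∀ i j k (hij : i ≤ j) (hjk : j ≤ k) x,
        f j k hjk (f i j hij x) = f i k (hij.trans hjk) x)
      (h3 : ∀ i j (hij : i ≤ j) x, g j (f i j hij x) = g i x)
      (h4 : ∀ y, ∃ i x, g i x = y)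
      (h5 : ∀ i x, g i x = 1 → ∃ j, ∃ hij : i ≤ j, f i j hij x = 1)
      (h : ∀ i, KLHull B (G i)) : KLHull B L
  /-- actions on trees: `G` is torsion-free and acts on a tree without inversions with vertex
  stabilizers in the class; `L i` is a family of groups of the class with homomorphisms `π i` to
  `G`; for each edge `{p, q}` and each finitely generated subgroup `H` of its stabilizer there are
  an `i` and a section `G → L i` of `π i` which commutes with inversion and with the
  multiplication by elements of `H` on both sides -/
  | tree {G V : Type} [Group G] [MulAction G V] (T : SimpleGraph V) (ht : TorsionFree G)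
      (hT : IsTreeAction G V T) (hV : ∀ v : V, KLHull B (MulAction.stabilizer G v))
      {ι : Type} (L : ι → Type) [∀ i, Group (L i)] (hL : ∀ i, KLHull B (L i))
      (π : ∀ i, L i →* G)
      (hs : ∀ p q, T.Adj p q → ∀ H : Subgroup G, H.FG → (∀ h ∈ H, h • p = p ∧ h • q = q) →
        ∃ (i : ι) (s : G → L i), IsBisection H (π i) s) : KLHull B G

end Pool.Agent.PE
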