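import Pool.Agent.Lib.MP_98022b_pe.Sol

/-!
# Trees with small intersections of edge stabilizers
-/

set_option autoImplicit false

namespace Pool.Agent.PE

open SimpleGraph Pool.Agent.FJ UC Biset

variable {S : ∀ (G : Type) [Group G], Prop}

/-- The first vertex after `p` on the path from `p` to `x`. -/
theorem exists_first {G V : Type} [Group G] [MulAction G V] {T : SimpleGraph V}
    (hT : IsTreeAction G V T) {p x : V} (hpx : p ≠ x) :
    ∃ y, T.Adj p y ∧ T.dist y x < T.dist p x ∧
      ∀ g : G, g • p = p → g • x = x → g • y = y := by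
  obtain ⟨w, hw, hl⟩ := hT.tree.connected.exists_path_of_dist p x
  cases w with
  | nil => exact absurd rfl hpx
  | @cons _ y _ h w' =>
    refine ⟨y, h, ?_, ?_⟩
    · have h1 := dist_le w'
      rw [Walk.length_cons] at hl
      omega
    · intro g hp hx
      let φ : T →g T := ⟨fun v => g • v, fun {a b} hab => hT.adj g a b hab⟩
      have h2 : ((Walk.cons h w').map φ).IsPath :=
        hw.map (MulAction.injective g)
      have h3 : (((Walk.cons h w').map φ).copy hp hx).IsPath := by
        rw [Walk.isPath_copy]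
        exact h2
      have h4 := congrArg (fun z : T.Path p x => (z : T.Walk p x).support)
        (hT.tree.isAcyclic.path_unique ⟨_, h3⟩ ⟨_, hw⟩)
      have h5 : (((Walk.cons h w').map φ).copy hp hx).support = (Walk.cons h w').support := h4
      rw [Walk.support_copy, Walk.support_map, Walk.support_cons, List.map_cons] at h5
      have h6 : w'.support.map φ = w'.support := (List.cons.inj h5).2
      rw [Walk.support_eq_cons, List.map_cons] at h6
      exact (List.cons.inj h6).1

/-- **Main theorem.** -/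
theorem main_gen {G V : Type} [Group G] [MulAction G V] {T : SimpleGraph V}
    (ht : TorsionFree G) (hT : IsTreeAction G V T)
    (hV : ∀ v : V, KLHull S (MulAction.stabilizer G v))
    (hE : ∀ p q, T.Adj p q → ∀ H : Subgroup G, H.FG → (∀ h ∈ H, h • p = p ∧ h • q = q) →
      ∃ C : Subgroup G, H ≤ C ∧ KLHull S C ∧ ∀ g ∉ C, ∀ K : Subgroup G, K.FG →
        (∀ k ∈ K, k ∈ C ∧ g⁻¹ * k * g ∈ C) → VPoly K) :
    KLHull S G := by
  let ι : Type := {C : Subgroup G // KLHull S C ∧ ∀ g ∉ C, ∀ K : Subgroup G, K.FG →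
        (∀ k ∈ K, k ∈ C ∧ g⁻¹ * k * g ∈ C) → VPoly K}
  have letters : ∀ i : ι, IsLetterSet i.1 {d | d ∉ i.1} := fun i =>
    { inv := fun d hd h => hd (by rw [← inv_inv d]; exact inv_mem h)
      mul_left := fun c hc d hd h => hd (by
        have := mul_mem (inv_mem hc) h
        rwa [inv_mul_cancel_left] at this)
      mul_right := fun c hc d hd h => hd (by
        have := mul_mem h (inv_mem hc)
        rwa [mul_inv_cancel_right] at this)
      notMem := fun d hd => hd }
  refine KLHull.tree T ht hT hV (ι := ι) (fun i => Grp i.1 {d | d ∉ i.1}) (fun i => ?_)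
    (fun i => proj i.1 {d | d ∉ i.1}) ?_
  · refine uc_mem i.1 {d | d ∉ i.1} (B := fun _ => True) (fun m _ => sol m) ht i.2.1 ?_
    intro d hd K hK
    have h1 : VPoly (K.map (i.1 ⊓ i.1.map (MulAut.conj d).toMonoidHom : Subgroup G).subtype) := by
      refine i.2.2 d hd _ (fg_map _ hK) ?_
      rintro _ ⟨⟨k, hk1, ⟨c, hc, hck⟩⟩, -, rfl⟩
      have hck' : d * c * d⁻¹ = k := hck
      refine ⟨hk1, ?_⟩
      show d⁻¹ * k * d ∈ i.1
      rw [← hck']
      have : d⁻¹ * (d * c * d⁻¹) * d = c := by group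
      rw [this]
      exact hc
    obtain ⟨m, hm⟩ := VPoly.exists_rank h1
    exact ⟨m, trivial, VP.of_injective
      (K.equivMapOfInjective _ (Subgroup.subtype_injective _)).toMonoidHom
      (K.equivMapOfInjective _ (Subgroup.subtype_injective _)).injective hm⟩
  · intro p q hpq H hfg hH
    obtain ⟨C, hHC, hC1, hC2⟩ := hE p q hpq H hfg hH
    let i : ι := ⟨C, hC1, hC2⟩
    exact ⟨i, sec (letters i), fun g => proj_sec (letters i) (Classical.em _),
      fun g => sec_inv (letters i) (Classical.em _), fun h hh g =>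
      ⟨sec_mul_left (letters i) (hHC hh) (Classical.em _),
      sec_mul_right (letters i) (hHC hh) (Classical.em _)⟩⟩

/-- The case of small common stabilizers of two edges with a common vertex in `V₀`. -/
theorem main_tree {G V : Type} [Group G] [MulAction G V] {T : SimpleGraph V}
    (ht : TorsionFree G) (hT : IsTreeAction G V T)
    (hV : ∀ v : V, KLHull S (MulAction.stabilizer G v))
    (V₀ : Set V) (hV₀ : ∀ (g : G), ∀ v ∈ V₀, g • v ∈ V₀)
    (hcov : ∀ p q, T.Adj p q → p ∈ V₀ ∨ q ∈ V₀)
    (hsmall : ∀ q ∈ V₀, ∀ p r, T.Adj q p → T.Adj q r → p ≠ r → ∀ K : Subgroup G, K.FG →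
      (∀ k ∈ K, k • p = p ∧ k • q = q ∧ k • r = r) → VPoly K) :
    KLHull S G := by
  have conj_fix : ∀ (d k : G) (v : V), (d⁻¹ * k * d) • v = v → k • d • v = d • v := by
    intro d k v h
    rw [mul_smul, mul_smul] at h
    rw [inv_smul_eq_iff] at h
    exact h
  refine main_gen ht hT hV ?_
  intro p q hpq H hfg hH
  -- stabilizers of vertices outside `V₀`
  have case1 : ∀ r : V, r ∉ V₀ → ∀ d ∉ MulAction.stabilizer G r, ∀ K : Subgroup G, K.FG →
      (∀ k ∈ K, k ∈ MulAction.stabilizer G r ∧ d⁻¹ * k * d ∈ MulAction.stabilizer G r) →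
      VPoly K := by
    intro r hr d hd K hK hKs
    have hd' : r ≠ d • r := fun h => hd h.symm
    have hdr : d • r ∉ V₀ := fun h => hr (by
      have := hV₀ d⁻¹ _ h
      rwa [inv_smul_smul] at this)
    obtain ⟨x₁, ha₁, hd₁, hf₁⟩ := exists_first hT hd'
    have hx₁ : x₁ ∈ V₀ := (hcov _ _ ha₁).resolve_left hr
    have hne : x₁ ≠ d • r := fun h => hdr (h ▸ hx₁)
    obtain ⟨x₂, ha₂, hd₂, hf₂⟩ := exists_first hT hne
    refine hsmall x₁ hx₁ r x₂ ha₁.symm ha₂ ?_ K hK ?_
    · rintro rfl
      omega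
    · intro k hk
      have h1 : k • r = r := (hKs k hk).1
      have h2 : k • d • r = d • r := conj_fix d k r (hKs k hk).2
      exact ⟨h1, hf₁ k h1 h2, hf₂ k (hf₁ k h1 h2) h2⟩
  by_cases hp : p ∈ V₀
  · by_cases hq : q ∈ V₀
    · -- both end points in `V₀`
      have hsub : KLHull S (MulAction.stabilizer G p ⊓ MulAction.stabilizer G q : Subgroup G) :=
        KLHull.sub (Subgroup.inclusion inf_le_left) (Subgroup.inclusion_injective _) (hV p)
      refine ⟨MulAction.stabilizer G p ⊓ MulAction.stabilizer G q, fun h hh => hH h hh, hsub, ?_⟩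
      intro d hd K hK hKs
      have hfix : ∀ k ∈ K, k • p = p ∧ k • q = q ∧ k • d • p = d • p ∧ k • d • q = d • q := by
        intro k hk
        obtain ⟨h1, h2⟩ := hKs k hk
        exact ⟨h1.1, h1.2, conj_fix d k p h2.1, conj_fix d k q h2.2⟩
      have hadj : T.Adj (d • p) (d • q) := hT.adj d p q hpq
      by_cases h1 : d • p = p
      · have h2 : d • q ≠ q := fun h2 => hd ⟨h1, h2⟩
        refine hsmall p hp q (d • q) hpq (by rw [h1] at hadj; exact hadj) h2.symm K hK ?_
        intro k hk
        obtain ⟨a, b, c, e⟩ := hfix k hk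
        exact ⟨b, a, e⟩
      by_cases h2 : d • p = q
      · have h3 : d • q ≠ p := hT.noInv d p q hpq h2
        refine hsmall q hq p (d • q) hpq.symm (by rw [h2] at hadj; exact hadj) h3.symm K hK ?_
        intro k hk
        obtain ⟨a, b, c, e⟩ := hfix k hk
        exact ⟨a, b, e⟩
      obtain ⟨x₁, ha₁, hd₁, hf₁⟩ := exists_first hT (fun h => h1 h.symm : p ≠ d • p)
      by_cases h3 : x₁ = q
      · obtain ⟨x₂, ha₂, hd₂, hf₂⟩ := exists_first hT (fun h => h2 h.symm : q ≠ d • p)
        refine hsmall q hq p x₂ hpq.symm ha₂ ?_ K hK ?_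
        · rintro rfl
          rw [h3] at hd₁
          omega
        · intro k hk
          obtain ⟨a, b, c, e⟩ := hfix k hk
          exact ⟨a, b, hf₂ k b c⟩
      · refine hsmall p hp q x₁ hpq ha₁ (fun h => h3 h.symm) K hK ?_
        intro k hk
        obtain ⟨a, b, c, e⟩ := hfix k hk
        exact ⟨b, a, hf₁ k a c⟩
    · exact ⟨MulAction.stabilizer G q, fun h hh => (hH h hh).2, hV q, case1 q hq⟩
  · exact ⟨MulAction.stabilizer G p, fun h hh => (hH h hh).1, hV p, case1 p hp⟩

end Pool.Agent.PE
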