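import Pool.Agent.Lib.MP_98022b_pe.Defs
import Pool.Agent.Lib.MP_98022b_ab.Cayley

/-!
# The universal group of a subgroup and a set of letters

`A` is a group, `C` a subgroup, `D` a subset of `A \ C` with `D = D⁻¹ = C D C`.  A letter is a pair
`(v, v')` of cosets in `A ⧸ C` with `v⁻¹ v' ∈ D`.  The free group on the letters acts on
`Pt = (A ⧸ C) ⊕ Sym2 (A ⧸ C)`: the letter `(v, v')` acts as the transposition of `v` and
`{v, v'}`.  So `W = FreeGroup (Letter) ⋊ A` acts on `Pt`; `Grp` is the stabilizer of the base point.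
`W` acts on the Cayley tree of the free group.
-/

set_option autoImplicit false

namespace Pool.Agent.PE

open SimpleGraph

/-- `H` is commensurated by `G`: `H ∩ g H g⁻¹` has finite index in `H` for all `g`. -/
def Commensurated {G : Type} [Group G] (H : Subgroup G) : Prop :=
  ∀ g : G, (H.map (MulAut.conj g).toMonoidHom).relIndex H ≠ 0

/-- `D` is a set of letters for `C`. -/
structure IsLetterSet {A : Type} [Group A] (C : Subgroup A) (D : Set A) : Prop where
  inv : ∀ d ∈ D, d⁻¹ ∈ D
  mul_left : ∀ c ∈ C, ∀ d ∈ D, c * d ∈ D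
  mul_right : ∀ c ∈ C, ∀ d ∈ D, d * c ∈ D
  notMem : ∀ d ∈ D, d ∉ C

namespace UC

variable {A : Type} [Group A] (C : Subgroup A) (D : Set A)

/-- The pair of cosets `v, v'` is linked by `D`. -/
def Lk (v v' : A ⧸ C) : Prop := ∃ a b : A, (a : A ⧸ C) = v ∧ (b : A ⧸ C) = v' ∧ a⁻¹ * b ∈ D

theorem Lk.smul {C : Subgroup A} {D : Set A} {v v' : A ⧸ C} (h : Lk C D v v') (g : A) :
    Lk C D (g • v) (g • v') := by
  obtain ⟨a, b, rfl, rfl, h⟩ := h
  refine ⟨g * a, g * b, rfl, rfl, ?_⟩
  have : (g * a)⁻¹ * (g * b) = a⁻¹ * b := by group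
  rw [this]; exact h

/-- Letters. -/
def Letter : Type := {e : (A ⧸ C) × (A ⧸ C) // Lk C D e.1 e.2}

instance : MulAction A (Letter C D) where
  smul g e := ⟨(g • e.1.1, g • e.1.2), e.2.smul g⟩
  one_smul e := Subtype.ext (Prod.ext (one_smul A e.1.1) (one_smul A e.1.2))
  mul_smul g h e := Subtype.ext (Prod.ext (mul_smul g h e.1.1) (mul_smul g h e.1.2))

@[simp] theorem smul_fst (g : A) (e : Letter C D) : (g • e).1.1 = g • e.1.1 := rfl
@[simp] theorem smul_snd (g : A) (e : Letter C D) : (g • e).1.2 = g • e.1.2 := rfl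

/-- Points: cosets and unordered pairs of cosets. -/
inductive Pt : Type
  /-- a coset -/
  | ctr (v : A ⧸ C)
  /-- an unordered pair of cosets -/
  | mid' (m : Sym2 (A ⧸ C))

variable {C} in
/-- an unordered pair of cosets as a point -/
def Pt.mid (v v' : A ⧸ C) : Pt C := Pt.mid' s(v, v')

instance : MulAction A (Pt C) where
  smul g y := match y with
    | .ctr v => .ctr (g • v)
    | .mid' m => .mid' (m.map fun v => g • v)
  one_smul y := by
    rcases y with v | m
    · exact congrArg Pt.ctr (one_smul A v)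
    · induction m with | _ v v' =>
      show Pt.mid' s((1 : A) • v, (1 : A) • v') = _
      rw [one_smul, one_smul]
  mul_smul g h y := by
    rcases y with v | m
    · exact congrArg Pt.ctr (mul_smul g h v)
    · induction m with | _ v v' =>
      show Pt.mid' s((g * h) • v, (g * h) • v') = Pt.mid' s(g • h • v, g • h • v')
      rw [mul_smul, mul_smul]

@[simp] theorem smul_ctr (g : A) (v : A ⧸ C) : g • (Pt.ctr v : Pt C) = Pt.ctr (g • v) := rfl
@[simp] theorem smul_mid (g : A) (v v' : A ⧸ C) : g • Pt.mid v v' = Pt.mid (g • v) (g • v') := rfl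

theorem mid_eq_iff {v v' w w' : A ⧸ C} :
    (Pt.mid v v' : Pt C) = Pt.mid w w' ↔ (v = w ∧ v' = w') ∨ (v = w' ∧ v' = w) := by
  unfold Pt.mid
  rw [Pt.mid'.injEq, Sym2.eq_iff]

theorem mid_comm (v v' : A ⧸ C) : (Pt.mid v v' : Pt C) = Pt.mid v' v :=
  (mid_eq_iff C).2 (Or.inr ⟨rfl, rfl⟩)

theorem ctr_ne_mid (v w w' : A ⧸ C) : (Pt.ctr v : Pt C) ≠ Pt.mid w w' := fun h => by
  cases h

/-- The action of `A` on the free group on the letters. -/
def act : A →* MulAut (FreeGroup (Letter C D)) where
  toFun g := FreeGroup.freeGroupCongr (MulAction.toPerm g)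
  map_one' := by
    refine MulEquiv.ext fun w => ?_
    induction w using FreeGroup.induction_on with
    | C1 => simp
    | of e => simp [FreeGroup.freeGroupCongr]
    | inv_of e h => rw [map_inv, map_inv, h]
    | mul a b ha hb => rw [map_mul, map_mul, ha, hb]
  map_mul' g h := by
    refine MulEquiv.ext fun w => ?_
    induction w using FreeGroup.induction_on with
    | C1 => simp
    | of e => simp [FreeGroup.freeGroupCongr, mul_smul]
    | inv_of e h => rw [map_inv, map_inv, h]
    | mul a b ha hb => rw [map_mul, map_mul, ha, hb]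

@[simp] theorem act_of (g : A) (e : Letter C D) :
    act C D g (FreeGroup.of e) = FreeGroup.of (g • e) := by
  simp [act, FreeGroup.freeGroupCongr]

theorem act_pair (g : A) (x y : Letter C D) :
    act C D g (FreeGroup.of x * (FreeGroup.of y)⁻¹) =
      FreeGroup.of (g • x) * (FreeGroup.of (g • y))⁻¹ := by
  rw [map_mul, map_inv, act_of, act_of]

/-- The semidirect product. -/
abbrev W : Type := FreeGroup (Letter C D) ⋊[act C D] A

open Classical in
/-- The action of the free group on the points. -/
noncomputable def swapHom : FreeGroup (Letter C D) →* Equiv.Perm (Pt C) :=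
  FreeGroup.lift fun e => Equiv.swap (Pt.ctr e.1.1) (Pt.mid e.1.1 e.1.2)

open Classical in
theorem swapHom_of (e : Letter C D) : swapHom C D (FreeGroup.of e) =
    Equiv.swap (Pt.ctr e.1.1) (Pt.mid e.1.1 e.1.2) := by
  unfold swapHom
  rw [FreeGroup.lift_apply_of]

open Classical in
theorem swap_smul (g : A) (x z y : Pt C) :
    Equiv.swap (g • x) (g • z) (g • y) = g • Equiv.swap x z y := by
  by_cases h1 : y = x
  · subst h1; rw [Equiv.swap_apply_left, Equiv.swap_apply_left]
  by_cases h2 : y = z
  · subst h2; rw [Equiv.swap_apply_right, Equiv.swap_apply_right]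
  rw [Equiv.swap_apply_of_ne_of_ne h1 h2, Equiv.swap_apply_of_ne_of_ne]
  · exact fun h => h1 (MulAction.injective g h)
  · exact fun h => h2 (MulAction.injective g h)

theorem swapHom_act (g : A) (w : FreeGroup (Letter C D)) (y : Pt C) :
    swapHom C D (act C D g w) (g • y) = g • swapHom C D w y := by
  classical
  induction w using FreeGroup.induction_on generalizing y with
  | C1 => simp
  | of e =>
    rw [act_of, swapHom_of, swapHom_of]
    show Equiv.swap (g • Pt.ctr e.1.1) (g • Pt.mid e.1.1 e.1.2) (g • y) = _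
    exact swap_smul C g _ _ y
  | inv_of e h =>
    rw [map_inv, map_inv, map_inv]
    rw [Equiv.Perm.inv_eq_iff_eq, h, ← Equiv.Perm.mul_apply, mul_inv_cancel, Equiv.Perm.one_apply]
  | mul a b ha hb =>
    rw [map_mul, map_mul, map_mul, Equiv.Perm.mul_apply, Equiv.Perm.mul_apply, hb, ha]

/-- The action of `W` on the points. -/
noncomputable def ptHom : W C D →* Equiv.Perm (Pt C) :=
  SemidirectProduct.lift (swapHom C D) (MulAction.toPermHom A (Pt C)) (by
    intro g
    refine MonoidHom.ext fun w => Equiv.ext fun y => ?_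
    have h := swapHom_act C D g w (g⁻¹ • y)
    rw [smul_inv_smul] at h
    exact h)

theorem ptHom_apply (x : W C D) (y : Pt C) : ptHom C D x y = swapHom C D x.left (x.right • y) :=
  rfl

/-- The base point. -/
def pt0 : Pt C := Pt.ctr ((1 : A) : A ⧸ C)

/-- The universal group: the stabilizer of the base point in `W`. -/
noncomputable def Grp : Subgroup (W C D) :=
  (MulAction.stabilizer (Equiv.Perm (Pt C)) (pt0 C)).comap (ptHom C D)

theorem mem_Grp (x : W C D) : x ∈ Grp C D ↔ swapHom C D x.left (x.right • pt0 C) = pt0 C :=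
  Iff.rfl

theorem smul_pt0 {c : A} (hc : c ∈ C) : c • pt0 C = pt0 C := by
  show Pt.ctr (c • ((1 : A) : A ⧸ C)) = Pt.ctr ((1 : A) : A ⧸ C)
  refine congrArg Pt.ctr ?_
  show ((c * 1 : A) : A ⧸ C) = _
  rw [QuotientGroup.eq]
  simpa using hc

/-- The projection to `A`. -/
noncomputable def proj : Grp C D →* A := SemidirectProduct.rightHom.comp (Grp C D).subtype

theorem proj_apply (x : Grp C D) : proj C D x = x.1.right := rfl

theorem inr_mem {c : A} (hc : c ∈ C) : (SemidirectProduct.inr c : W C D) ∈ Grp C D := by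
  rw [mem_Grp, SemidirectProduct.left_inr, SemidirectProduct.right_inr, smul_pt0 C hc, map_one]
  rfl

/-- The inclusion of `C`. -/
noncomputable def inc : C →* Grp C D :=
  (SemidirectProduct.inr.comp C.subtype).codRestrict (Grp C D) fun c => inr_mem C D c.2

variable {C D}

/-- the letter `(1, d)` -/
def letA (d : A) (hd : d ∈ D) : Letter C D :=
  ⟨(((1 : A) : A ⧸ C), (d : A ⧸ C)), 1, d, rfl, rfl, by simpa using hd⟩

/-- the letter `(d, 1)` -/
def letB (hD : IsLetterSet C D) (d : A) (hd : d ∈ D) : Letter C D :=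
  ⟨((d : A ⧸ C), ((1 : A) : A ⧸ C)), d, 1, rfl, rfl, by simpa using hD.inv d hd⟩

theorem sec_mem (hD : IsLetterSet C D) (d : A) (hd : d ∈ D) :
    (⟨FreeGroup.of (letA d hd) * (FreeGroup.of (letB hD d hd))⁻¹, d⟩ : W C D) ∈ Grp C D := by
  classical
  rw [mem_Grp]
  show swapHom C D (FreeGroup.of (letA d hd) * (FreeGroup.of (letB hD d hd))⁻¹) (d • pt0 C) = _
  rw [map_mul, map_inv, swapHom_of, swapHom_of, Equiv.swap_inv, Equiv.Perm.mul_apply]
  have h1 : d • pt0 C = Pt.ctr (d : A ⧸ C) := by
    show Pt.ctr (d • ((1 : A) : A ⧸ C)) = _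
    refine congrArg Pt.ctr ?_
    show ((d * 1 : A) : A ⧸ C) = _
    rw [mul_one]
  rw [h1]
  show Equiv.swap (Pt.ctr ((1 : A) : A ⧸ C)) (Pt.mid ((1 : A) : A ⧸ C) (d : A ⧸ C))
    (Equiv.swap (Pt.ctr (d : A ⧸ C)) (Pt.mid (d : A ⧸ C) ((1 : A) : A ⧸ C))
      (Pt.ctr (d : A ⧸ C))) = _
  rw [Equiv.swap_apply_left, mid_comm, Equiv.swap_apply_right]
  rfl

open Classical in
/-- The section: `c ↦ (1, c)` on `C` and `d ↦ (x_(1,d) x_(d,1)⁻¹, d)` on `D`. -/
noncomputable def sec (hD : IsLetterSet C D) (a : A) : Grp C D :=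
  if hc : a ∈ C then inc C D ⟨a, hc⟩
  else if hd : a ∈ D then
    ⟨⟨FreeGroup.of (letA a hd) * (FreeGroup.of (letB hD a hd))⁻¹, a⟩, sec_mem hD a hd⟩
  else 1

theorem sec_of_mem (hD : IsLetterSet C D) {c : A} (hc : c ∈ C) :
    sec hD c = inc C D ⟨c, hc⟩ := by
  unfold sec
  rw [dif_pos hc]

theorem sec_of_mem_D (hD : IsLetterSet C D) {d : A} (hd : d ∈ D) :
    sec hD d = ⟨⟨FreeGroup.of (letA d hd) * (FreeGroup.of (letB hD d hd))⁻¹, d⟩,
      sec_mem hD d hd⟩ := by
  unfold sec
  rw [dif_neg (hD.notMem d hd), dif_pos hd]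

theorem proj_sec (hD : IsLetterSet C D) {a : A} (ha : a ∈ C ∨ a ∈ D) :
    proj C D (sec hD a) = a := by
  rcases ha with ha | ha
  · rw [sec_of_mem hD ha]; rfl
  · rw [sec_of_mem_D hD ha]; rfl

theorem sec_inv (hD : IsLetterSet C D) {a : A} (ha : a ∈ C ∨ a ∈ D) :
    sec hD a⁻¹ = (sec hD a)⁻¹ := by
  rcases ha with ha | ha
  · rw [sec_of_mem hD ha, sec_of_mem hD (inv_mem ha), ← map_inv]
    rfl
  · rw [sec_of_mem_D hD ha, sec_of_mem_D hD (hD.inv a ha)]
    refine Subtype.ext (SemidirectProduct.ext ?_ rfl)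
    show FreeGroup.of (letA a⁻¹ (hD.inv a ha)) * (FreeGroup.of (letB hD a⁻¹ (hD.inv a ha)))⁻¹ =
      act C D a⁻¹ (FreeGroup.of (letA a ha) * (FreeGroup.of (letB hD a ha))⁻¹)⁻¹
    rw [mul_inv_rev, inv_inv, act_pair]
    have h1 : a⁻¹ • letB hD a ha = letA a⁻¹ (hD.inv a ha) := by
      refine Subtype.ext (Prod.ext ?_ ?_)
      · show ((a⁻¹ * a : A) : A ⧸ C) = ((1 : A) : A ⧸ C)
        rw [inv_mul_cancel]
      · show ((a⁻¹ * 1 : A) : A ⧸ C) = ((a⁻¹ : A) : A ⧸ C)
        rw [mul_one]
    have h2 : a⁻¹ • letA a ha = letB hD a⁻¹ (hD.inv a ha) := by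
      refine Subtype.ext (Prod.ext ?_ ?_)
      · show ((a⁻¹ * 1 : A) : A ⧸ C) = ((a⁻¹ : A) : A ⧸ C)
        rw [mul_one]
      · show ((a⁻¹ * a : A) : A ⧸ C) = ((1 : A) : A ⧸ C)
        rw [inv_mul_cancel]
    rw [h1, h2]

theorem sec_mul_left (hD : IsLetterSet C D) {c a : A} (hc : c ∈ C) (ha : a ∈ C ∨ a ∈ D) :
    sec hD (c * a) = sec hD c * sec hD a := by
  rcases ha with ha | ha
  · rw [sec_of_mem hD ha, sec_of_mem hD hc, sec_of_mem hD (mul_mem hc ha), ← map_mul]
    rfl
  · have hca := hD.mul_left c hc a ha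
    rw [sec_of_mem_D hD ha, sec_of_mem hD hc, sec_of_mem_D hD hca]
    refine Subtype.ext (SemidirectProduct.ext ?_ rfl)
    show FreeGroup.of (letA (c * a) hca) * (FreeGroup.of (letB hD (c * a) hca))⁻¹ =
      1 * act C D c (FreeGroup.of (letA a ha) * (FreeGroup.of (letB hD a ha))⁻¹)
    rw [one_mul, map_mul, map_inv, act_of, act_of]
    have h0 : ((c * 1 : A) : A ⧸ C) = ((1 : A) : A ⧸ C) := by
      rw [QuotientGroup.eq]
      simpa using hc
    have h1 : c • letA a ha = letA (c * a) hca :=
      Subtype.ext (Prod.ext h0 rfl)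
    have h2 : c • letB hD a ha = letB hD (c * a) hca :=
      Subtype.ext (Prod.ext rfl h0)
    rw [h1, h2]

theorem sec_mul_right (hD : IsLetterSet C D) {c a : A} (hc : c ∈ C) (ha : a ∈ C ∨ a ∈ D) :
    sec hD (a * c) = sec hD a * sec hD c := by
  rcases ha with ha | ha
  · rw [sec_of_mem hD ha, sec_of_mem hD hc, sec_of_mem hD (mul_mem ha hc), ← map_mul]
    rfl
  · have hac := hD.mul_right c hc a ha
    rw [sec_of_mem_D hD ha, sec_of_mem hD hc, sec_of_mem_D hD hac]
    refine Subtype.ext (SemidirectProduct.ext ?_ rfl)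
    show FreeGroup.of (letA (a * c) hac) * (FreeGroup.of (letB hD (a * c) hac))⁻¹ =
      FreeGroup.of (letA a ha) * (FreeGroup.of (letB hD a ha))⁻¹ * act C D a 1
    rw [map_one, mul_one]
    have h0 : ((a * c : A) : A ⧸ C) = (a : A ⧸ C) := by
      rw [QuotientGroup.eq]
      have : (a * c)⁻¹ * a = c⁻¹ := by group
      rw [this]
      exact inv_mem hc
    have h1 : letA (C := C) (a * c) hac = letA a ha :=
      Subtype.ext (Prod.ext rfl h0)
    have h2 : letB hD (a * c) hac = letB hD a ha :=
      Subtype.ext (Prod.ext h0 rfl)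
    rw [h1, h2]

variable (C D)

theorem torsionFree_W (hA : TorsionFree A) : TorsionFree (W C D) := by
  intro x hx
  have h1 : x.right = 1 := hA _ (MonoidHom.isOfFinOrder SemidirectProduct.rightHom hx)
  obtain ⟨n, hn, h⟩ := isOfFinOrder_iff_pow_eq_one.1 hx
  have hx' : x = SemidirectProduct.inl x.left := SemidirectProduct.ext rfl h1
  rw [hx', ← map_pow] at h
  have h2 : x.left ^ n = 1 := SemidirectProduct.inl_injective (h.trans (map_one _).symm)
  have h3 : x.left = 1 := pow_left_injective hn.ne' (by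
    show x.left ^ n = 1 ^ n
    rw [h2, one_pow])
  rw [hx', h3, map_one]

/-- Vertices of the Cayley tree. -/
abbrev Vert : Type := FreeGroup (Letter C D)

instance : MulAction (W C D) (Vert C D) where
  smul x u := x.left * act C D x.right u
  one_smul u := by
    show 1 * act C D 1 u = u
    rw [map_one, one_mul]
    rfl
  mul_smul x x' u := by
    show x.left * act C D x.right x'.left * act C D (x.right * x'.right) u =
      x.left * act C D x.right (x'.left * act C D x'.right u)
    rw [map_mul, map_mul, mul_assoc]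
    rfl

theorem smul_vert (x : W C D) (u : Vert C D) :
    x • u = x.left * act C D x.right u := rfl

/-- The Cayley graph of the free group on the letters. -/
abbrev Cay : SimpleGraph (Vert C D) := Biset.cay (Letter C D)

theorem adj_iff {u u' : Vert C D} : (Cay C D).Adj u u' ↔
    ∃ e : Letter C D, u' = u * FreeGroup.of e ∨ u = u' * FreeGroup.of e := by
  have h0 : ∀ e : Letter C D, FreeGroup.mk [(e, false)] = (FreeGroup.of e)⁻¹ := fun e => by
    rw [FreeGroup.of, FreeGroup.inv_mk]; rfl
  constructor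
  · rintro ⟨⟨e, b⟩, h⟩
    refine ⟨e, ?_⟩
    cases b
    · right
      rw [h, h0, inv_mul_cancel_right]
    · left; exact h
  · rintro ⟨e, h | h⟩
    · exact ⟨(e, true), h⟩
    · refine ⟨(e, false), ?_⟩
      rw [h0, h, mul_inv_cancel_right]

theorem isTreeAction_W : IsTreeAction (W C D) (Vert C D) (Cay C D) where
  tree := Biset.cay_isTree
  adj x u u' h := by
    rw [adj_iff] at h ⊢
    obtain ⟨e, h | h⟩ := h
    · refine ⟨x.right • e, Or.inl ?_⟩
      rw [h, smul_vert, smul_vert, map_mul, act_of, mul_assoc]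
    · refine ⟨x.right • e, Or.inr ?_⟩
      rw [h, smul_vert, smul_vert, map_mul, act_of, mul_assoc]
  noInv x u u' h h1 h2 := by
    have key : ∀ (e : Letter C D) (v v' : Vert C D), v' = v * FreeGroup.of e → x • v = v' →
        x • v' ≠ v := by
      intro e v v' h h1 h2
      have h3 : x • v' = (x • v) * FreeGroup.of (x.right • e) := by
        rw [h, smul_vert, smul_vert, map_mul, act_of, mul_assoc]
      rw [h2, h1, h, mul_assoc] at h3
      have h4 : FreeGroup.of e * FreeGroup.of (x.right • e) = 1 :=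
        (mul_eq_left (a := v)).1 h3.symm
      exact Biset.mk_ne_one (L := [(e, true), (x.right • e, true)]) (by
        rw [FreeGroup.isReduced_cons_cons]
        exact ⟨fun _ => rfl, FreeGroup.IsReduced.singleton⟩) (by simp) h4
    obtain ⟨e, h | h⟩ := (adj_iff C D).1 h
    · exact key e u u' h h1 h2
    · exact key e u' u h h2 h1

theorem isTreeAction : IsTreeAction (Grp C D) (Vert C D) (Cay C D) where
  tree := (isTreeAction_W C D).tree
  adj x := (isTreeAction_W C D).adj x
  noInv x := (isTreeAction_W C D).noInv x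

/-- The point below a vertex. -/
noncomputable def below (u : Vert C D) : Pt C := (swapHom C D u)⁻¹ (pt0 C)

theorem proj_below {u : Vert C D} {x : Grp C D} (hx : x • u = u) :
    proj C D x • below C D u = below C D u := by
  have hx' : x.1.left * act C D x.1.right u = u := hx
  have h1 : swapHom C D x.1.left (x.1.right • pt0 C) = pt0 C := (mem_Grp C D _).1 x.2
  have h2 := swapHom_act C D x.1.right u (below C D u)
  have h3 : swapHom C D u (below C D u) = pt0 C := by
    show swapHom C D u ((swapHom C D u)⁻¹ (pt0 C)) = pt0 C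
    rw [← Equiv.Perm.mul_apply, mul_inv_cancel, Equiv.Perm.one_apply]
  rw [h3] at h2
  have h4 : swapHom C D u (x.1.right • below C D u) = pt0 C := by
    have h5 : swapHom C D u = swapHom C D x.1.left * swapHom C D (act C D x.1.right u) := by
      rw [← map_mul, hx']
    rw [h5, Equiv.Perm.mul_apply, h2, h1]
  show x.1.right • below C D u = (swapHom C D u)⁻¹ (pt0 C)
  rw [← h4, ← Equiv.Perm.mul_apply, inv_mul_cancel, Equiv.Perm.one_apply]

theorem eq_one_of_proj {u : Vert C D} {x : Grp C D} (hx : x • u = u) (h1 : proj C D x = 1) :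
    x = 1 := by
  have hx' : x.1.left * act C D x.1.right u = u := hx
  have h1' : x.1.right = 1 := h1
  rw [h1', map_one] at hx'
  have h2 : x.1.left = 1 := mul_eq_right.1 hx'
  exact Subtype.ext (SemidirectProduct.ext h2 h1')

theorem below_cases (u : Vert C D) :
    (∃ v, below C D u = Pt.ctr v) ∨ ∃ e : Letter C D, below C D u = Pt.mid e.1.1 e.1.2 := by
  classical
  let Good : Pt C → Prop := fun y =>
    (∃ v, y = Pt.ctr v) ∨ ∃ e : Letter C D, y = Pt.mid e.1.1 e.1.2
  have key : ∀ (w : FreeGroup (Letter C D)) (y : Pt C), Good y →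
      Good (swapHom C D w y) ∧ Good ((swapHom C D w)⁻¹ y) := by
    intro w
    induction w using FreeGroup.induction_on with
    | C1 => intro y hy; simpa using hy
    | of e =>
      intro y hy
      rw [swapHom_of, Equiv.swap_inv]
      have : Good (Equiv.swap (Pt.ctr e.1.1) (Pt.mid e.1.1 e.1.2) y) := by
        by_cases h1 : y = Pt.ctr e.1.1
        · rw [h1, Equiv.swap_apply_left]
          exact Or.inr ⟨e, rfl⟩
        by_cases h2 : y = Pt.mid e.1.1 e.1.2
        · rw [h2, Equiv.swap_apply_right]
          exact Or.inl ⟨_, rfl⟩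
        rw [Equiv.swap_apply_of_ne_of_ne h1 h2]
        exact hy
      exact ⟨this, this⟩
    | inv_of e h =>
      intro y hy
      rw [map_inv, inv_inv]
      exact (h y hy).symm
    | mul a b ha hb =>
      intro y hy
      rw [map_mul, mul_inv_rev, Equiv.Perm.mul_apply, Equiv.Perm.mul_apply]
      exact ⟨(ha _ (hb y hy).1).1, (hb _ (ha y hy).2).2⟩
  exact (key u (pt0 C) (Or.inl ⟨_, rfl⟩)).2

theorem smul_mul_of (x : W C D) (u : Vert C D) (e : Letter C D) :
    x • (u * FreeGroup.of e : Vert C D) = (x • u : Vert C D) * FreeGroup.of (x.right • e) := by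
  rw [smul_vert, smul_vert, map_mul, act_of, mul_assoc]

theorem proj_edge {u u' : Vert C D} (h : (Cay C D).Adj u u') :
    ∃ e : Letter C D, ∀ x : Grp C D, x • u = u → x • u' = u' → proj C D x • e = e := by
  have key : ∀ (e : Letter C D) (v v' : Vert C D), v' = v * FreeGroup.of e →
      ∀ x : Grp C D, x • v = v → x • v' = v' → proj C D x • e = e := by
    intro e v v' h x h1 h2
    have h1' : x.1 • v = v := h1
    have h2' : x.1 • v' = v' := h2
    rw [h, smul_mul_of, h1'] at h2'
    exact FreeGroup.of_injective (mul_left_cancel h2')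
  obtain ⟨e, h | h⟩ := (adj_iff C D).1 h
  · exact ⟨e, fun x h1 h2 => key e u u' h x h1 h2⟩
  · exact ⟨e, fun x h1 h2 => key e u' u h x h2 h1⟩

/-- The elements of `A` which fix a word. -/
def fixW (w : FreeGroup (Letter C D)) : Subgroup A where
  carrier := {a | act C D a w = w}
  one_mem' := by
    show act C D 1 w = w
    rw [map_one]; rfl
  mul_mem' := by
    intro a b ha hb
    show act C D (a * b) w = w
    rw [map_mul]
    show act C D a (act C D b w) = w
    rw [show act C D b w = w from hb]
    exact ha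
  inv_mem' := by
    intro a ha
    show act C D a⁻¹ w = w
    rw [map_inv]
    show (act C D a).symm w = w
    rw [MulEquiv.symm_apply_eq]
    exact (show act C D a w = w from ha).symm

/-- The stabilizer of a coset. -/
theorem stabilizer_coset (b : A) : MulAction.stabilizer A (b : A ⧸ C) =
    C.map (MulAut.conj b).toMonoidHom := by
  ext x
  rw [MulAction.mem_stabilizer_iff, Subgroup.mem_map]
  constructor
  · intro h
    refine ⟨b⁻¹ * x * b, ?_, ?_⟩
    · have h1 : ((x * b : A) : A ⧸ C) = (b : A ⧸ C) := h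
      have h2 := C.inv_mem (QuotientGroup.eq.1 h1)
      have h3 : b⁻¹ * x * b = ((x * b)⁻¹ * b)⁻¹ := by group
      rw [h3]; exact h2
    · show b * (b⁻¹ * x * b) * b⁻¹ = x
      group
  · rintro ⟨c, hc, rfl⟩
    show ((b * c * b⁻¹ * b : A) : A ⧸ C) = (b : A ⧸ C)
    rw [inv_mul_cancel_right, QuotientGroup.eq]
    have : (b * c)⁻¹ * b = c⁻¹ := by group
    rw [this]
    exact inv_mem hc

variable {C} in
theorem relIndex_conj (hC : Commensurated C) (a b : A) :
    (C.map (MulAut.conj a).toMonoidHom).relIndex (C.map (MulAut.conj b).toMonoidHom) ≠ 0 := by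
  have h1 := hC (b⁻¹ * a)
  have h2 : (C.map (MulAut.conj a).toMonoidHom) =
      (C.map (MulAut.conj (b⁻¹ * a)).toMonoidHom).map (MulAut.conj b).toMonoidHom := by
    rw [Subgroup.map_map]
    congr 1
    ext x
    simp [mul_assoc]
  rw [h2, Subgroup.relIndex_map_map_of_injective _ _ (MulAut.conj b).injective]
  exact h1

variable {C} in
theorem fixW_relIndex (hC : Commensurated C) (w : FreeGroup (Letter C D)) (b : A) :
    (fixW C D w).relIndex (C.map (MulAut.conj b).toMonoidHom) ≠ 0 := by
  induction w using FreeGroup.induction_on with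
  | C1 =>
    have : fixW C D 1 = ⊤ := by
      rw [eq_top_iff]
      intro x _
      exact map_one (act C D x)
    rw [this, Subgroup.relIndex_top_left]
    exact one_ne_zero
  | of e =>
    obtain ⟨a, a', h1, h2, -⟩ := e.2
    refine fun h0 => Subgroup.relIndex_inf_ne_zero (relIndex_conj hC a b) (relIndex_conj hC a' b)
      (Subgroup.relIndex_eq_zero_of_le_left ?_ h0)
    intro x hx
    rw [← stabilizer_coset, ← stabilizer_coset, Subgroup.mem_inf,
      MulAction.mem_stabilizer_iff, MulAction.mem_stabilizer_iff] at hx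
    show act C D x (FreeGroup.of _) = FreeGroup.of _
    rw [act_of]
    congr 1
    rw [h1, h2] at hx
    exact Subtype.ext (Prod.ext hx.1 hx.2)
  | inv_of e h =>
    have : fixW C D (FreeGroup.of e)⁻¹ = fixW C D (FreeGroup.of e) := by
      ext x
      show act C D x (FreeGroup.of e)⁻¹ = (FreeGroup.of e)⁻¹ ↔
        act C D x (FreeGroup.of e) = FreeGroup.of e
      rw [map_inv, inv_inj]
    rw [this]
    exact h
  | mul u v hu hv =>
    refine fun h0 => Subgroup.relIndex_inf_ne_zero hu hv
      (Subgroup.relIndex_eq_zero_of_le_left ?_ h0)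
    intro x hx
    show act C D x (u * v) = u * v
    rw [map_mul, show act C D x u = u from hx.1, show act C D x v = v from hx.2]

/-- The stabilizer of a coset has index at most two in the stabilizer of a pair. -/
theorem relIndex_pair (v v' : A ⧸ C) :
    (MulAction.stabilizer A v).relIndex (MulAction.stabilizer A (Pt.mid v v' : Pt C)) ≠ 0 := by
  have h : (MulAction.stabilizer A v).relIndex (MulAction.stabilizer A (Pt.mid v v' : Pt C)) ∣ 2 :=
    by
    rw [Subgroup.relIndex_dvd_two_iff]
    have key : ∀ b ∈ MulAction.stabilizer A (Pt.mid v v' : Pt C),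
        (b • v = v ∧ b • v' = v') ∨ (b • v = v' ∧ b • v' = v) := by
      intro b hb
      rw [MulAction.mem_stabilizer_iff, smul_mid, mid_eq_iff] at hb
      exact hb
    by_cases h0 : ∃ a ∈ MulAction.stabilizer A (Pt.mid v v' : Pt C), a • v = v' ∧ a • v' = v
    · obtain ⟨a, ha, h1, h2⟩ := h0
      refine ⟨a, ha, fun b hb => ?_⟩
      rcases key b hb with h3 | h3
      · exact Or.inr h3.1
      · left
        rw [MulAction.mem_stabilizer_iff, mul_smul, h1, h3.2]
    · refine ⟨1, one_mem _, fun b hb => Or.inr ?_⟩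
      rcases key b hb with h3 | h3
      · exact h3.1
      · exact absurd ⟨b, hb, h3⟩ h0
  intro h0
  rw [h0] at h
  exact absurd (Nat.eq_zero_of_zero_dvd h) (by norm_num)

/-- If `A` commensurates `C`, all vertex stabilizers are commensurable to `C`. -/
theorem commensurable_stabilizer (hC : Commensurated C) (u : Vert C D) :
    Subgroup.Commensurable (MulAction.stabilizer (Grp C D) u) (inc C D).range := by
  have hfix : ∀ x : Grp C D, x.1.left = 1 → (x ∈ MulAction.stabilizer (Grp C D) u ↔
      x.1.right ∈ fixW C D u) := by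
    intro x hx
    have h1 : x • u = x.1.left * act C D x.1.right u := rfl
    rw [MulAction.mem_stabilizer_iff, h1, hx, one_mul]
    rfl
  have h1C : C.map (MulAut.conj (1 : A)).toMonoidHom = C := by
    rw [map_one]
    exact Subgroup.map_id C
  refine ⟨?_, ?_⟩
  · rw [← Subgroup.index_comap]
    have h2 : (MulAction.stabilizer (Grp C D) u).comap (inc C D) = (fixW C D u).subgroupOf C := by
      ext c
      rw [Subgroup.mem_comap, hfix (inc C D c) rfl, Subgroup.mem_subgroupOf]
      rfl
    rw [h2]
    have := fixW_relIndex D hC u 1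
    rw [h1C] at this
    exact this
  · -- the projection is injective on the stabilizer
    set X : Subgroup A := fixW C D u ⊓ C with hX
    have hXb : ∀ b : A, X.relIndex (C.map (MulAut.conj b).toMonoidHom) ≠ 0 := fun b =>
      Subgroup.relIndex_inf_ne_zero (fixW_relIndex D hC u b) (by
        have := relIndex_conj hC 1 b
        rw [h1C] at this
        exact this)
    have hXy : X.relIndex (MulAction.stabilizer A (below C D u)) ≠ 0 := by
      rcases below_cases C D u with ⟨v, hv⟩ | ⟨e, he⟩
      · rw [hv]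
        induction v using QuotientGroup.induction_on with
        | H b =>
          have : MulAction.stabilizer A (Pt.ctr (b : A ⧸ C) : Pt C) =
              MulAction.stabilizer A (b : A ⧸ C) := by
            ext x
            rw [MulAction.mem_stabilizer_iff, MulAction.mem_stabilizer_iff, smul_ctr,
              Pt.ctr.injEq]
          rw [this, stabilizer_coset]
          exact hXb b
      · rw [he]
        obtain ⟨⟨v, v'⟩, -⟩ := e
        induction v using QuotientGroup.induction_on with
        | H b =>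
          refine Subgroup.relIndex_ne_zero_trans ?_ (relIndex_pair C _ v')
          rw [stabilizer_coset]
          exact hXb b
    have h3 : (X.comap (proj C D)).relIndex (MulAction.stabilizer (Grp C D) u) ≠ 0 := by
      rw [Subgroup.relIndex_comap]
      refine mt (Subgroup.relIndex_eq_zero_of_le_right ?_) hXy
      rintro _ ⟨x, hx, rfl⟩
      exact proj_below C D hx
    have h4 : (X.comap (proj C D) ⊓ MulAction.stabilizer (Grp C D) u).relIndex
        (MulAction.stabilizer (Grp C D) u) ≠ 0 := by
      rw [Subgroup.inf_relIndex_right]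
      exact h3
    refine mt (Subgroup.relIndex_eq_zero_of_le_left ?_) h4
    rintro x ⟨hx1, hx2⟩
    have h5 : x.1.left * act C D x.1.right u = u := hx2
    rw [show act C D x.1.right u = u from hx1.1] at h5
    exact ⟨⟨x.1.right, hx1.2⟩, Subtype.ext (SemidirectProduct.ext (mul_eq_right.1 h5).symm rfl)⟩

end UC

end Pool.Agent.PE
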